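import Pool.Agent.Helper45.AM.GoalsA
import Pool.Agent.Helper15.AM.GoalsG

/-!
# Packet AM-AK (MP_cc6379_al): the relative Kazhdan-Lusztig basis
-/

set_option autoImplicit false

open LaurentPolynomial Pool.Agent.Helper15.RA Pool.Agent.Helper45.AM

noncomputable section

namespace Pool.Agent.Helper86.AM

/-- The part of negative degree. -/
def np (p : ℤ[T;T⁻¹]) : ℤ[T;T⁻¹] := AddMonoidAlgebra.ofCoeff (p.coeff.filter (· < 0))

lemma np_zero : np 0 = 0 := by
  unfold np
  rw [AddMonoidAlgebra.coeff_zero, Finsupp.filter_zero, AddMonoidAlgebra.ofCoeff_zero]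

lemma np_apply (p : ℤ[T;T⁻¹]) (n : ℤ) : (np p).coeff n = if n < 0 then p.coeff n else 0 := by
  unfold np
  rw [AddMonoidAlgebra.coeff_ofCoeff, Finsupp.filter_apply]

lemma np_deg (p : ℤ[T;T⁻¹]) : DegLE (-1) (np p) := fun n hn => by
  rw [np_apply, if_neg]
  omega

lemma np_eq {p : ℤ[T;T⁻¹]} (h : invert p = -p) : p = np p - invert (np p) := by
  refine LaurentPolynomial.ext fun n => ?_
  have h1 : p.coeff (-n) = -p.coeff n := by
    have h2 := congrArg (fun q : ℤ[T;T⁻¹] => q.coeff n) h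
    simp only [invert_apply] at h2
    rw [h2, AddMonoidAlgebra.coeff_neg, Finsupp.neg_apply]
  rw [AddMonoidAlgebra.coeff_sub, Finsupp.sub_apply, invert_apply, np_apply, np_apply, h1]
  rcases lt_trichotomy n 0 with h3 | h3 | h3
  · rw [if_pos h3, if_neg (by omega), sub_zero]
  · subst h3
    have h4 : p.coeff 0 = -p.coeff 0 := by simpa using h1
    have h5 : p.coeff 0 = 0 := by omega
    rw [h5]
    simp
  · rw [if_neg (by omega), if_pos (by omega), zero_sub, neg_neg]

variable {S W H : Type} [Group W] [Ring H] [Algebra ℤ[T;T⁻¹] H] (X : Base S W H) (P : Set S)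

/-- The elements `x' g'` with `ℓ(x') < n`, `g' ≤_L g`. -/
def Zs (n : ℕ) (g : W) : Set W :=
  {z | ∃ x' g', XR X.cs P x' ∧ g' ∈ par X.cs P ∧ z = x' * g' ∧ X.cs.length x' < n ∧ X.leL P g' g}

/-- Their span. -/
def Md (n : ℕ) (g : W) : Submodule ℤ[T;T⁻¹] H := Submodule.span _ (X.b '' Zs X P n g)

variable {X P}

lemma Zs_mono {n n' : ℕ} {g g' : W} (hn : n ≤ n') (hg : X.leL P g g') :
    Zs X P n g ⊆ Zs X P n' g' := by
  rintro z ⟨x, k, h1, h2, h3, h4, h5⟩
  exact ⟨x, k, h1, h2, h3, h4.trans_le hn, hg.trans h5⟩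

lemma c_mem_Md {n : ℕ} {g z : W} (h : z ∈ Zs X P n g) : X.D.c z ∈ Md X P n g := by
  rw [← X.hb z]
  exact Submodule.subset_span ⟨z, h, rfl⟩

lemma bar_repr (h2 : H_2) (U : H) (z : W) :
    X.b.repr (X.D.bar U) z = invert (X.b.repr U z) := by
  obtain ⟨hsl, -⟩ := h2 S W H X.M X.cs X.L X.wt X.D
  have key : X.D.bar U =
      X.b.repr.symm ((X.b.repr U).mapRange (fun p => invert p) (map_zero _)) := by
    have h1 : U = (X.b.repr U).sum fun w a => a • X.b w := by
      conv_lhs => rw [← X.b.linearCombination_repr U]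
      rfl
    rw [Module.Basis.repr_symm_apply, Finsupp.linearCombination_apply,
      Finsupp.sum_mapRange_index (by simp)]
    conv_lhs => rw [h1]
    rw [Finsupp.sum, map_sum, Finsupp.sum]
    refine Finset.sum_congr rfl fun w _ => ?_
    rw [hsl, X.hb, X.D.bar_c]
  rw [key, LinearEquiv.apply_symm_apply, Finsupp.mapRange_apply]

/-- The relative expansion. -/
def KK (X : Base S W H) (P : Set S) (x g : W) : Prop :=
  ∃ q : W →₀ ℤ[T;T⁻¹], (∀ z, DegLE (-1) (q z)) ∧
    (∀ z ∈ q.support, z ∈ Zs X P (X.cs.length x) g) ∧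
    X.D.c (x * g) = X.D.t x * X.D.c g + q.sum fun z a => a • X.D.c z

lemma KK_mem {x g g₀ : W} {n : ℕ} (h : KK X P x g) (hx : XR X.cs P x) (hg : g ∈ par X.cs P)
    (hn : X.cs.length x < n) (hgg : X.leL P g g₀) : X.D.t x * X.D.c g ∈ Md X P n g₀ := by
  obtain ⟨q, h1, h2, h3⟩ := h
  have h4 : X.D.t x * X.D.c g = X.D.c (x * g) - q.sum fun z a => a • X.D.c z := by
    rw [h3, add_sub_cancel_right]
  rw [h4]
  refine Submodule.sub_mem _ (c_mem_Md ⟨x, g, hx, hg, rfl, hn, hgg⟩) ?_
  refine Submodule.sum_mem _ fun z hz => Submodule.smul_mem _ _ ?_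
  exact c_mem_Md (Zs_mono hn.le hgg (h2 z hz))

/-- `T_(g₀) c_g` is a combination of the `c_(g')`, `g' ≤_L g`. -/
lemma tg_cg (hAS : A_S) {g₀ g : W} (hg₀ : g₀ ∈ par X.cs P) (hg : g ∈ par X.cs P) :
    X.D.t g₀ * X.D.c g ∈ Submodule.span ℤ[T;T⁻¹]
      (X.D.c '' {g' | g' ∈ par X.cs P ∧ X.leL P g' g}) := by
  obtain ⟨-, -, -, -, hS5, hS6, -⟩ := hAS S W H X P
  have h1 : X.D.t g₀ = (X.b.repr (X.D.t g₀)).sum fun w a => a • X.b w := by
    conv_lhs => rw [← X.b.linearCombination_repr (X.D.t g₀)]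
    rfl
  rw [h1, Finsupp.sum, Finset.sum_mul]
  refine Submodule.sum_mem _ fun u hu => ?_
  have hu' : u ∈ par X.cs P := hS5 g₀ hg₀ u (Finsupp.mem_support_iff.1 hu)
  rw [smul_mul_assoc, X.hb, X.isH]
  refine Submodule.smul_mem _ _ (Submodule.sum_mem _ fun z hz => Submodule.smul_mem _ _ ?_)
  have hz' : X.h u g z ≠ 0 := Finsupp.mem_support_iff.1 hz
  exact Submodule.subset_span ⟨z, ⟨hS6 u hu' g hg z hz', Relation.ReflTransGen.single ⟨u, hu', hz'⟩⟩, rfl⟩

lemma claimA (hGA : Pool.Agent.Helper15.AM.G_PA) (hAS : A_S) {n : ℕ}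
    (IH : ∀ x, XR X.cs P x → X.cs.length x < n → ∀ g ∈ par X.cs P, KK X P x g)
    {y g : W} (hy : X.cs.length y < n) (hg : g ∈ par X.cs P) : X.D.t y * X.D.c g ∈ Md X P n g := by
  obtain ⟨-, hdec, hlen⟩ := hGA S W X.M X.cs P
  obtain ⟨x, g₀, hg₀, hx, rfl⟩ := hdec y
  have hl := hlen x hx g₀ hg₀
  rw [← X.D.mul x g₀ hl, mul_assoc]
  have h1 := tg_cg hAS hg₀ hg
  have hxn : X.cs.length x < n := by omega
  refine Submodule.span_induction (p := fun Z _ => X.D.t x * Z ∈ Md X P n g) ?_ ?_ ?_ ?_ h1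
  · rintro Z ⟨g', ⟨hg', hle⟩, rfl⟩
    exact KK_mem (IH x hx hxn g' hg') hx hg' hxn hle
  · rw [mul_zero]
    exact Submodule.zero_mem _
  · intro Y Z _ _ hY hZ
    rw [mul_add]
    exact Submodule.add_mem _ hY hZ
  · intro a Z _ hZ
    rw [mul_smul_comm]
    exact Submodule.smul_mem _ _ hZ

lemma t_c_deg (D : Hecke X.cs X.L H) (w y : W) : DegLE 0 (D.t.repr (D.c w) y) := by
  classical
  have h1 := D.c_sub w y
  have h2 : D.t.repr (D.c w) y = D.t.repr (D.c w - D.t w) y + D.t.repr (D.t w) y := by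
    rw [map_sub, Finsupp.sub_apply, sub_add_cancel]
  rw [h2]
  refine (h1.mono (by omega)).add ?_
  rw [Module.Basis.repr_self, Finsupp.single_apply]
  split_ifs
  · exact DegLE.one le_rfl
  · exact DegLE.zero 0

lemma KK_all (hGA : Pool.Agent.Helper15.AM.G_PA) (h2 : H_2) (hAS : A_S) :
    ∀ (n : ℕ) (x : W), X.cs.length x = n → XR X.cs P x → ∀ g ∈ par X.cs P, KK X P x g := by
  classical
  intro n
  induction n using Nat.strong_induction_on with
  | _ n ih =>
    intro x hxn hx g hg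
    have IH : ∀ x, XR X.cs P x → X.cs.length x < n → ∀ g ∈ par X.cs P, KK X P x g :=
      fun x' hx' hl g' hg' => ih _ hl x' rfl hx' g' hg'
    obtain ⟨hsl, hbt1, hbt2, -, -, -, huniq, -⟩ := h2 S W H X.M X.cs X.L X.wt X.D
    obtain ⟨-, -, -, hS4, -⟩ := hAS S W H X P
    obtain ⟨-, -, hlen⟩ := hGA S W X.M X.cs P
    set Y : H := X.D.t x * X.D.c g with hY
    set U : H := X.D.bar Y - Y with hU
    -- the difference is in the span
    have hUmem : U ∈ Md X P n g := by
      have h3 : U = (X.D.bar (X.D.t x) - X.D.t x) * X.D.c g := by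
        rw [hU, hY, map_mul, X.D.bar_c, sub_mul]
      set r := X.D.t.repr (X.D.bar (X.D.t x) - X.D.t x) with hr
      have h4 : X.D.bar (X.D.t x) - X.D.t x = r.sum fun w a => a • X.D.t w := by
        conv_lhs => rw [← X.D.t.linearCombination_repr (X.D.bar (X.D.t x) - X.D.t x)]
        rfl
      rw [h3, h4, Finsupp.sum, Finset.sum_mul]
      refine Submodule.sum_mem _ fun y hy => ?_
      rw [smul_mul_assoc]
      refine Submodule.smul_mem _ _ (claimA hGA hAS IH ?_ hg)
      have hy' : r y ≠ 0 := Finsupp.mem_support_iff.1 hy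
      rw [hr, map_sub, Finsupp.sub_apply, Module.Basis.repr_self] at hy'
      by_cases hyx : y = x
      · exfalso
        apply hy'
        rw [hyx, hbt1, Finsupp.single_eq_same, sub_self]
      · rw [Finsupp.single_eq_of_ne hyx, sub_zero] at hy'
        rcases hbt2 x y hy' with h5 | h5
        · exact absurd h5 hyx
        · omega
    have hsupp : ∀ z ∈ (X.b.repr U).support, z ∈ Zs X P n g := fun z hz =>
      (X.b.mem_span_image.1 hUmem) hz
    have hanti : ∀ z, invert (X.b.repr U z) = -(X.b.repr U z) := by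
      intro z
      rw [← bar_repr h2, hU, map_sub, X.D.bar_bar, ← neg_sub, map_neg, Finsupp.neg_apply]
    set q : W →₀ ℤ[T;T⁻¹] := (X.b.repr U).mapRange np np_zero with hq
    have hqz : ∀ z, q z = np (X.b.repr U z) := fun z => Finsupp.mapRange_apply ..
    have hqs : ∀ z ∈ q.support, z ∈ Zs X P n g := fun z hz =>
      hsupp z (Finsupp.support_mapRange hz)
    set Q : H := q.sum fun z a => a • X.D.c z with hQ
    have hQrepr : X.b.repr Q = q := by
      have : Q = X.b.repr.symm q := by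
        rw [Module.Basis.repr_symm_apply, Finsupp.linearCombination_apply, hQ]
        refine Finsupp.sum_congr fun z _ => ?_
        rw [X.hb]
      rw [this, LinearEquiv.apply_symm_apply]
    have hZbar : X.D.bar (Y + Q) = Y + Q := by
      have h5 : X.D.bar Q + U = Q := by
        apply X.b.repr.injective
        ext z : 1
        rw [map_add, Finsupp.add_apply, bar_repr h2, hQrepr, hqz]
        have h6 := np_eq (hanti z)
        conv_lhs => rw [h6]
        have h7 : ∀ A B : ℤ[T;T⁻¹], A + (B - A) = B := fun A B => by abel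
        rw [← h6]
        have h8 : X.b.repr U z = np (X.b.repr U z) - invert (np (X.b.repr U z)) := h6
        generalize np (X.b.repr U z) = N at *
        rw [h8]
        abel
      have h9 : X.D.bar Y = Y + U := by rw [hU]; abel
      rw [map_add, h9]
      calc Y + U + X.D.bar Q = Y + (X.D.bar Q + U) := by abel
        _ = Y + Q := by rw [h5]
    have hZdeg : ∀ y, DegLE (-1) (X.D.t.repr (Y + Q - X.D.t (x * g)) y) := by
      intro y
      have h5 : Y + Q - X.D.t (x * g) = X.D.t x * (X.D.c g - X.D.t g) + Q := by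
        rw [mul_sub, X.D.mul x g (hlen x hx g hg), hY]
        abel
      rw [h5, map_add, Finsupp.add_apply]
      refine DegLE.add ?_ ?_
      · set d := X.D.t.repr (X.D.c g - X.D.t g) with hd
        have h6 : X.D.c g - X.D.t g = d.sum fun w a => a • X.D.t w := by
          conv_lhs => rw [← X.D.t.linearCombination_repr (X.D.c g - X.D.t g)]
          rfl
        rw [h6, Finsupp.sum, Finset.mul_sum, map_sum, Finsupp.finsetSum_apply]
        refine DegLE.sum fun w hw => ?_
        have hw' : w ∈ par X.cs P := by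
          by_cases hwg : w = g
          · rw [hwg]; exact hg
          · apply hS4 g hg
            have h7 : d w ≠ 0 := Finsupp.mem_support_iff.1 hw
            rw [hd, map_sub, Finsupp.sub_apply, Module.Basis.repr_self,
              Finsupp.single_eq_of_ne hwg, sub_zero] at h7
            exact h7
        rw [mul_smul_comm, X.D.mul x w (hlen x hx w hw'), map_smul, Finsupp.smul_apply,
          Module.Basis.repr_self, smul_eq_mul, Finsupp.single_apply]
        refine (X.D.c_sub g w).mul_le (l := 0) ?_ (by omega)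
        split_ifs
        · exact DegLE.one le_rfl
        · exact DegLE.zero 0
      · rw [hQ, Finsupp.sum, map_sum, Finsupp.finsetSum_apply]
        refine DegLE.sum fun z _ => ?_
        rw [map_smul, Finsupp.smul_apply, smul_eq_mul, hqz]
        exact (np_deg _).mul_le (t_c_deg X.D z y) (by omega)
    have hfin := huniq (x * g) (Y + Q) hZbar hZdeg
    refine ⟨q, fun z => by rw [hqz]; exact np_deg _, ?_, hfin.symm⟩
    rw [hxn]
    exact hqs

/-- Combinations of the `T_x c_g` over the pairs with the property `R`, coefficients of degree `≤ k`. -/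
def NN (X : Base S W H) (R : W × W → Prop) (k : ℤ) (Z : H) : Prop :=
  ∃ p : W × W →₀ ℤ[T;T⁻¹], (∀ r, DegLE k (p r)) ∧ (∀ r ∈ p.support, R r) ∧
    Z = p.sum fun r q => q • (X.D.t r.1 * X.D.c r.2)

lemma NN.add {R : W × W → Prop} {k : ℤ} {Y Z : H} (hY : NN X R k Y) (hZ : NN X R k Z) :
    NN X R k (Y + Z) := by
  classical
  obtain ⟨p, p1, p2, p3⟩ := hY
  obtain ⟨q, q1, q2, q3⟩ := hZ
  refine ⟨p + q, fun r => (p1 r).add (q1 r), fun r hr => ?_, ?_⟩
  · rcases Finset.mem_union.1 (Finsupp.support_add hr) with h | h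
    · exact p2 r h
    · exact q2 r h
  · rw [p3, q3]
    symm
    refine Finsupp.sum_add_index' (fun r => by rw [zero_smul]) (fun r a b => by rw [add_smul])

lemma NN.zero {R : W × W → Prop} {k : ℤ} : NN X R k 0 :=
  ⟨0, fun r => DegLE.zero k, fun r hr => by simp at hr, by simp⟩

lemma NN.smul {R : W × W → Prop} {k l m : ℤ} {a : ℤ[T;T⁻¹]} {Z : H} (ha : DegLE l a)
    (hZ : NN X R k Z) (h : l + k ≤ m) : NN X R m (a • Z) := by
  classical
  obtain ⟨p, p1, p2, p3⟩ := hZ
  refine ⟨a • p, fun r => ?_, fun r hr => p2 r (Finsupp.support_smul hr), ?_⟩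
  · rw [Finsupp.smul_apply, smul_eq_mul]
    exact ha.mul_le (p1 r) h
  · rw [p3, Finsupp.smul_sum, Finsupp.sum_smul_index (fun r => by rw [zero_smul])]
    refine Finsupp.sum_congr fun r _ => ?_
    rw [smul_smul]

lemma NN.sum {R : W × W → Prop} {k : ℤ} {ι : Type*} {s : Finset ι} {f : ι → H}
    (h : ∀ i ∈ s, NN X R k (f i)) : NN X R k (∑ i ∈ s, f i) := by
  classical
  induction s using Finset.induction_on with
  | empty => rw [Finset.sum_empty]; exact NN.zero
  | insert i s hi ih =>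
    rw [Finset.sum_insert hi]
    exact (h i (Finset.mem_insert_self i s)).add (ih fun j hj => h j (Finset.mem_insert_of_mem hj))

lemma NN.mono {R R' : W × W → Prop} {k l : ℤ} {Z : H} (hZ : NN X R k Z) (hR : ∀ r, R r → R' r)
    (hk : k ≤ l) : NN X R' l Z := by
  obtain ⟨p, p1, p2, p3⟩ := hZ
  exact ⟨p, fun r => (p1 r).mono hk, fun r hr => hR r (p2 r hr), p3⟩

lemma NN.single {R : W × W → Prop} {x g : W} (h : R (x, g)) : NN X R 0 (X.D.t x * X.D.c g) := by
  classical
  refine ⟨Finsupp.single (x, g) 1, fun r => ?_, fun r hr => ?_, ?_⟩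
  · rw [Finsupp.single_apply]
    split_ifs
    · exact DegLE.one le_rfl
    · exact DegLE.zero 0
  · have := Finsupp.support_single_subset hr
    rw [Finset.mem_singleton.1 this]
    exact h
  · rw [Finsupp.sum_single_index (by rw [zero_smul]), one_smul]

/-- The pairs of the expansion. -/
def RR (X : Base S W H) (P : Set S) (x g : W) (r : W × W) : Prop :=
  XR X.cs P r.1 ∧ r.2 ∈ par X.cs P ∧ X.cs.length r.1 < X.cs.length x ∧ X.leL P r.2 g

lemma second (hGA : Pool.Agent.Helper15.AM.G_PA) (h2 : H_2) (hAS : A_S) :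
    ∀ (n : ℕ) (x : W), X.cs.length x = n → XR X.cs P x → ∀ g ∈ par X.cs P,
      NN X (RR X P x g) (-1) (X.D.c (x * g) - X.D.t x * X.D.c g) := by
  intro n
  induction n using Nat.strong_induction_on with
  | _ n ih =>
    intro x hxn hx g hg
    obtain ⟨q, q1, q2, q3⟩ := KK_all hGA h2 hAS n x hxn hx g hg
    rw [q3, add_sub_cancel_left, Finsupp.sum]
    refine NN.sum fun z hz => ?_
    obtain ⟨x', g', hx', hg', rfl, hl, hle⟩ := q2 z hz
    have h3 := ih (X.cs.length x') (by omega) x' rfl hx' g' hg'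
    have h4 : NN X (RR X P x g) 0 (X.D.c (x' * g')) := by
      have h5 : X.D.c (x' * g') = X.D.t x' * X.D.c g' +
          (X.D.c (x' * g') - X.D.t x' * X.D.c g') := by abel
      rw [h5]
      refine NN.add (NN.single ⟨hx', hg', hl, hle⟩) (h3.mono ?_ (by omega))
      rintro r ⟨r1, r2, r3, r4⟩
      exact ⟨r1, r2, r3.trans hl, hle.trans r4⟩
    exact h4.smul (q1 _) (by omega)

theorem h_a_k (hGA : Pool.Agent.Helper15.AM.G_PA) (hGC : Pool.Agent.Helper15.AM.G_PC) (h2 : H_2)
    (hAS : A_S) : Pool.Agent.Helper45.AM.A_K := by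
  classical
  intro S W H _ _ _ X P x g hx hg
  obtain ⟨q, q1, q2, q3⟩ := KK_all hGA h2 hAS _ x rfl hx g hg
  obtain ⟨huniq, -⟩ := hGC S W X.M X.cs P
  have h1 : X.b.repr (X.D.t x * X.D.c g) = Finsupp.single (x * g) 1 - q := by
    have h3 : X.D.t x * X.D.c g = X.b (x * g) - X.b.repr.symm q := by
      rw [Module.Basis.repr_symm_apply, Finsupp.linearCombination_apply, X.hb, q3]
      have : (q.sum fun i a => a • X.b i) = q.sum fun z a => a • X.D.c z :=
        Finsupp.sum_congr fun z _ => by rw [X.hb]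
      rw [this, add_sub_cancel_right]
    rw [h3, map_sub, LinearEquiv.apply_symm_apply, Module.Basis.repr_self]
  have hq0 : q (x * g) = 0 := by
    by_contra h
    obtain ⟨x', g', hx', hg', he, hl, -⟩ := q2 _ (Finsupp.mem_support_iff.2 h)
    obtain ⟨h4, -⟩ := huniq x x' g g' hx hx' hg hg' he
    rw [h4] at hl
    exact lt_irrefl _ hl
  refine ⟨?_, ?_, ?_, ?_⟩
  · rw [h1, Finsupp.sub_apply, Finsupp.single_eq_same, hq0, sub_zero]
  · intro z hz
    rw [h1, Finsupp.sub_apply, Finsupp.single_eq_of_ne hz, zero_sub]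
    exact (q1 z).neg
  · intro z hz hne
    rw [h1, Finsupp.sub_apply, Finsupp.single_eq_of_ne hz, zero_sub] at hne
    obtain ⟨x', g', hx', hg', he, hl, hle⟩ := q2 z (Finsupp.mem_support_iff.2 (neg_ne_zero.1 hne))
    exact ⟨x', g', hx', hg', he, hl, hle⟩
  · obtain ⟨p, p1, p2, p3⟩ := second hGA h2 hAS _ x rfl hx g hg
    refine ⟨p, p1, p2, ?_⟩
    rw [← p3]
    abel

end Pool.Agent.Helper86.AM
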