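import Pool.Agent.Helper15.AM.GoalsG

/-!
# Packet AM-GMAT (MP_cc6379_al)
-/

set_option autoImplicit false

namespace Pool.Agent.Helper86.AM

open Pool.Agent.Helper15.AM

lemma s_rec (θ k : ℝ) :
    Real.sin ((k + 1) * θ) = 2 * Real.cos θ * Real.sin (k * θ) - Real.sin ((k - 1) * θ) := by
  have h1 : (k + 1) * θ = k * θ + θ := by ring
  have h2 : (k - 1) * θ = k * θ - θ := by ring
  rw [h1, h2, Real.sin_add, Real.sin_sub]
  ring

lemma rot_iter (θ : ℝ) (n : ℕ) (p : ℝ × ℝ) :
    Real.sin θ * ((rot (Real.cos θ))^[n] p).1 =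
      -Real.sin ((2 * n - 1) * θ) * p.1 - Real.sin ((2 * n) * θ) * p.2 ∧
    Real.sin θ * ((rot (Real.cos θ))^[n] p).2 =
      Real.sin ((2 * n) * θ) * p.1 + Real.sin ((2 * n + 1) * θ) * p.2 := by
  induction n with
  | zero =>
    have h1 : (2 * ((0 : ℕ) : ℝ) - 1) * θ = -θ := by push_cast; ring
    have h2 : (2 * ((0 : ℕ) : ℝ)) * θ = 0 := by push_cast; ring
    have h3 : (2 * ((0 : ℕ) : ℝ) + 1) * θ = θ := by push_cast; ring
    rw [h1, h2, h3, Real.sin_neg, Real.sin_zero]
    simp
  | succ n ih =>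
    obtain ⟨ih1, ih2⟩ := ih
    rw [Function.iterate_succ_apply']
    set q := (rot (Real.cos θ))^[n] p with hq
    have e1 : (2 * ((n + 1 : ℕ) : ℝ) - 1) * θ = (2 * (n : ℝ) + 1) * θ := by push_cast; ring
    have e2 : (2 * ((n + 1 : ℕ) : ℝ)) * θ = ((2 * (n : ℝ) + 1) + 1) * θ := by push_cast; ring
    have e3 : (2 * ((n + 1 : ℕ) : ℝ) + 1) * θ = ((2 * (n : ℝ) + 1 + 1) + 1) * θ := by
      push_cast; ring
    have r1 := s_rec θ (2 * (n : ℝ))
    have r2 := s_rec θ (2 * (n : ℝ) + 1)
    have r3 := s_rec θ (2 * (n : ℝ) + 1 + 1)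
    have e4 : (2 * (n : ℝ) + 1 - 1) * θ = (2 * (n : ℝ)) * θ := by ring
    have e5 : (2 * (n : ℝ) + 1 + 1 - 1) * θ = (2 * (n : ℝ) + 1) * θ := by ring
    rw [e4] at r2
    rw [e5] at r3
    rw [e1, e2, e3]
    generalize Real.sin ((2 * (n : ℝ) + 1 + 1 + 1) * θ) = S3 at *
    generalize Real.sin ((2 * (n : ℝ) + 1 + 1) * θ) = S2 at *
    generalize Real.sin ((2 * (n : ℝ) + 1) * θ) = S1 at *
    generalize Real.sin ((2 * (n : ℝ)) * θ) = S0 at *
    generalize Real.sin ((2 * (n : ℝ) - 1) * θ) = Sm at *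
    simp only [rot]
    constructor
    · have : Real.sin θ * (-q.1 - 2 * Real.cos θ * q.2) =
          -(Real.sin θ * q.1) - 2 * Real.cos θ * (Real.sin θ * q.2) := by ring
      rw [this, ih1, ih2, r2, r1]
      ring
    · have : Real.sin θ * (2 * Real.cos θ * q.1 + (4 * Real.cos θ ^ 2 - 1) * q.2) =
          2 * Real.cos θ * (Real.sin θ * q.1) + (4 * Real.cos θ ^ 2 - 1) * (Real.sin θ * q.2) := by
        ring
      rw [this, ih1, ih2, r3, r2, r1]
      ring

lemma rot_one (n : ℕ) (p : ℝ × ℝ) :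
    (rot 1)^[n] p = (-(2 * n - 1) * p.1 - 2 * n * p.2, 2 * n * p.1 + (2 * n + 1) * p.2) := by
  induction n with
  | zero => ext <;> simp
  | succ n ih =>
    rw [Function.iterate_succ_apply', ih]
    simp only [rot]
    ext
    · push_cast; ring
    · push_cast; ring

/-- `rot c` as an additive map. -/
def rotHom (c : ℝ) : ℝ × ℝ →+ ℝ × ℝ where
  toFun := rot c
  map_zero' := by simp [rot]
  map_add' p q := by
    simp only [rot, Prod.fst_add, Prod.snd_add, Prod.mk_add_mk]
    ext
    · ring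
    · ring

theorem h_gmat : Pool.Agent.Helper15.AM.G_MAT := by
  intro m hm
  rcases Nat.eq_zero_or_pos m with h0 | h0
  · subst h0
    refine ⟨fun h => absurd rfl h, fun n hn => ?_⟩
    have h1 : Real.cos (Real.pi / ((0 : ℕ) : ℝ)) = 1 := by simp
    rw [h1] at hn
    have h2 := hn (1, 0)
    rw [rot_one] at h2
    have h3 := congrArg Prod.snd h2
    simp only [mul_one, mul_zero, add_zero] at h3
    have h4 : (n : ℝ) = 0 := by linarith
    have h5 : n = 0 := by exact_mod_cast h4
    rw [h5]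
  · have hm2 : 2 ≤ m := by omega
    have hmR : (0 : ℝ) < m := by exact_mod_cast h0
    have hm2R : (2 : ℝ) ≤ m := by exact_mod_cast hm2
    set θ : ℝ := Real.pi / m with hθ
    have hθm : (m : ℝ) * θ = Real.pi := by rw [hθ]; field_simp
    have hθ0 : 0 < θ := div_pos Real.pi_pos hmR
    have hθ1 : θ < Real.pi := by
      rw [hθ, div_lt_iff₀ hmR]
      nlinarith [Real.pi_pos]
    have hsin : 0 < Real.sin θ := Real.sin_pos_of_pos_of_lt_pi hθ0 hθ1
    have hper : ∀ p, (rot (Real.cos θ))^[m] p = p := by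
      intro p
      obtain ⟨h1, h2⟩ := rot_iter θ m p
      have e0 : (2 * (m : ℝ)) * θ = 2 * Real.pi := by rw [mul_assoc, hθm]
      have e1 : (2 * (m : ℝ) - 1) * θ = 2 * Real.pi - θ := by rw [sub_mul, e0, one_mul]
      have e2 : (2 * (m : ℝ) + 1) * θ = θ + 2 * Real.pi := by rw [add_mul, e0, one_mul, add_comm]
      rw [e0, e1, Real.sin_two_pi_sub, Real.sin_two_pi] at h1
      rw [e0, e2, Real.sin_add_two_pi, Real.sin_two_pi] at h2
      ext
      · apply mul_left_cancel₀ hsin.ne'
        rw [h1]; ring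
      · apply mul_left_cancel₀ hsin.ne'
        rw [h2]; ring
    refine ⟨fun _ => ⟨hper, ?_⟩, ?_⟩
    · intro p
      set Q : ℝ × ℝ := ∑ t ∈ Finset.range m, (rot (Real.cos θ))^[t] p with hQ
      have hrot : rot (Real.cos θ) Q = Q := by
        have h1 : rotHom (Real.cos θ) Q =
            ∑ t ∈ Finset.range m, rotHom (Real.cos θ) ((rot (Real.cos θ))^[t] p) := by
          rw [hQ, map_sum]
        have h2 : ∑ t ∈ Finset.range m, rotHom (Real.cos θ) ((rot (Real.cos θ))^[t] p) =
            ∑ t ∈ Finset.range m, (rot (Real.cos θ))^[t + 1] p := by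
          refine Finset.sum_congr rfl fun t _ => ?_
          rw [Function.iterate_succ_apply']
          rfl
        have h3 := Finset.sum_range_succ (fun t => (rot (Real.cos θ))^[t] p) m
        have h4 := Finset.sum_range_succ' (fun t => (rot (Real.cos θ))^[t] p) m
        rw [h3] at h4
        have h5 : (rot (Real.cos θ))^[0] p = p := rfl
        rw [hper p, h5] at h4
        have h6 := add_right_cancel h4
        have h7 : rotHom (Real.cos θ) Q = rot (Real.cos θ) Q := rfl
        rw [← h7, h1, h2, ← h6]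
      have hc : Real.cos θ ^ 2 < 1 := by
        have := Real.sin_sq_add_cos_sq θ
        nlinarith
      have a1 := congrArg Prod.fst hrot
      have a2 := congrArg Prod.snd hrot
      simp only [rot] at a1 a2
      have a3 : (1 - Real.cos θ ^ 2) * Q.2 = 0 := by
        have : Q.1 = -(Real.cos θ * Q.2) := by linarith
        rw [this] at a2
        nlinarith
      have a4 : Q.2 = 0 := by
        rcases mul_eq_zero.1 a3 with h | h
        · exact absurd h (by linarith)
        · exact h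
      have a5 : Q.1 = 0 := by
        rw [a4] at a1
        linarith
      exact Prod.ext a5 a4
    · intro n hn
      obtain ⟨h1, h2⟩ := rot_iter θ n (1, 0)
      rw [hn (1, 0)] at h1 h2
      simp only [mul_one, mul_zero, sub_zero, add_zero] at h1 h2
      have e1 : (2 * (n : ℝ) - 1) * θ = (2 * (n : ℝ)) * θ - θ := by ring
      rw [e1, Real.sin_sub, ← h2, zero_mul, zero_sub] at h1
      have h3 : Real.cos ((2 * (n : ℝ)) * θ) = 1 := by
        apply mul_right_cancel₀ hsin.ne'
        linarith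
      obtain ⟨k, hk⟩ := (Real.cos_eq_one_iff _).1 h3
      have h4 : (k : ℝ) * m = n := by
        have h5 : (k : ℝ) * (2 * ((m : ℝ) * θ)) = 2 * n * θ := by rw [hθm]; exact hk
        have h6 : ((k : ℝ) * m) * (2 * θ) = n * (2 * θ) := by linarith
        exact mul_right_cancel₀ (by positivity) h6
      have h5 : k * (m : ℤ) = (n : ℤ) := by exact_mod_cast h4
      exact Int.natCast_dvd_natCast.1 ⟨k, by rw [← h5]; ring⟩

end Pool.Agent.Helper86.AM
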